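import Pool.Agent.K1H79.TW.Stm

set_option autoImplicit false

namespace Pool.Agent.K1H58.TW

open NumberField Polynomial Set Pool.Agent.K1H79.TW

open scoped Classical in
/-- all conjugates of algebraic integers of bounded degree and bounded house -/
theorem house_finite (n : ℕ) : ∃ V : Set ℂ, V.Finite ∧ ∀ (F : Type) [Field F] [NumberField F],
    Module.finrank ℚ F ≤ n → ∀ x : F, IsIntegral ℤ x → (∀ φ : F →+* ℂ, ‖φ x‖ ≤ 2) →
    ∀ φ : F →+* ℂ, φ x ∈ V := by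
  have hf := bUnion_roots_finite (algebraMap ℤ ℂ) n
    (finite_Icc (-((4 : ℤ) ^ n)) ((4 : ℤ) ^ n))
  refine ⟨_, hf, ?_⟩
  intro F _ _ hF x hx hxb φ
  simp_rw [mem_iUnion]
  have h_map_ℚ_minpoly := minpoly.isIntegrallyClosed_eq_field_fractions' ℚ hx
  refine ⟨minpoly ℤ x, ⟨?_, fun i => ?_⟩, ?_⟩
  · rw [← (minpoly.monic hx).natDegree_map (algebraMap ℤ ℚ), ← h_map_ℚ_minpoly]
    exact (minpoly.natDegree_le x).trans hF
  · rw [mem_Icc, ← abs_le, ← @Int.cast_le ℝ]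
    have h1 := Embeddings.coeff_bdd_of_norm_le (A := ℂ) hxb i
    have h2 : (max (2 : ℝ) 1 ^ Module.finrank ℚ F *
        (Module.finrank ℚ F).choose (Module.finrank ℚ F / 2)) ≤ (4 : ℝ) ^ n := by
      have h3 : (max (2 : ℝ) 1) = 2 := by norm_num
      rw [h3]
      have h4 : (2 : ℝ) ^ Module.finrank ℚ F ≤ 2 ^ n := pow_le_pow_right₀ (by norm_num) hF
      have h5 : (((Module.finrank ℚ F).choose (Module.finrank ℚ F / 2) : ℕ) : ℝ) ≤ 2 ^ n := by
        have h6 := Nat.choose_le_two_pow (Module.finrank ℚ F) (Module.finrank ℚ F / 2)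
        have h7 : (((Module.finrank ℚ F).choose (Module.finrank ℚ F / 2) : ℕ) : ℝ) ≤
            (2 : ℝ) ^ Module.finrank ℚ F := by exact_mod_cast h6
        exact h7.trans h4
      calc (2 : ℝ) ^ Module.finrank ℚ F * (Module.finrank ℚ F).choose (Module.finrank ℚ F / 2)
          ≤ 2 ^ n * 2 ^ n := mul_le_mul h4 h5 (by positivity) (by positivity)
        _ = (4 : ℝ) ^ n := by rw [← mul_pow]; norm_num
    rw [h_map_ℚ_minpoly, coeff_map, eq_intCast, Int.norm_cast_rat, Int.norm_eq_abs] at h1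
    push_cast
    exact h1.trans h2
  · rw [Finset.mem_coe, Multiset.mem_toFinset, mem_roots']
    refine ⟨(Polynomial.map_monic_ne_zero (minpoly.monic hx)), ?_⟩
    rw [IsRoot.def, eval_map, eval₂_eq_sum_range]
    have h1 : φ (aeval x (minpoly ℤ x)) = 0 := by
      rw [minpoly.aeval, map_zero]
    rw [aeval_eq_sum_range, map_sum] at h1
    rw [← h1]
    refine Finset.sum_congr rfl fun i _ => ?_
    rw [zsmul_eq_mul, map_mul, map_pow, map_intCast]
    simp

theorem t_KRO : S_KRO := by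
  intro n
  obtain ⟨V, hV, hVF⟩ := house_finite n
  have h1 : ∀ᶠ c : ℝ in nhdsWithin 0 (Ioi 0), ∀ z ∈ V, Real.log ‖z‖ ≠ 0 → c < |Real.log ‖z‖| := by
    rw [Filter.eventually_all_finite hV]
    intro z _
    by_cases h : Real.log ‖z‖ = 0
    · exact Filter.Eventually.of_forall fun c hc => absurd h hc
    · have h2 : 0 < |Real.log ‖z‖| := abs_pos.2 h
      filter_upwards [nhdsWithin_le_nhds (Iio_mem_nhds h2)] with c hc _ using hc
  have h2 : ∀ᶠ c : ℝ in nhdsWithin 0 (Ioi 0), c < Real.log 2 :=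
    nhdsWithin_le_nhds (Iio_mem_nhds (Real.log_pos (by norm_num)))
  have h3 : ∀ᶠ c : ℝ in nhdsWithin 0 (Ioi 0), 0 < c := self_mem_nhdsWithin
  obtain ⟨c, hc1, hc2, hc3⟩ := (h1.and (h2.and h3)).exists
  refine ⟨c, hc3, ?_⟩
  intro F _ _ hF u hu w
  have hx : IsIntegral ℤ ((u : 𝓞 F) : F) := RingOfIntegers.isIntegral_coe _
  have hx0 : ((u : 𝓞 F) : F) ≠ 0 := by
    simp
  have hpos : ∀ w : InfinitePlace F, 0 < w ((u : 𝓞 F) : F) := fun w =>
    InfinitePlace.pos_iff.2 hx0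
  have hb : ∀ φ : F →+* ℂ, ‖φ ((u : 𝓞 F) : F)‖ ≤ 2 := by
    intro φ
    have h4 := hu (InfinitePlace.mk φ)
    have h5 : (InfinitePlace.mk φ) ((u : 𝓞 F) : F) = ‖φ ((u : 𝓞 F) : F)‖ :=
      InfinitePlace.apply φ _
    have h6 := hpos (InfinitePlace.mk φ)
    rw [h5] at h4 h6
    have h7 : Real.log ‖φ ((u : 𝓞 F) : F)‖ ≤ Real.log 2 := (le_abs_self _).trans (h4.trans hc2.le)
    exact (Real.log_le_log_iff h6 (by norm_num)).1 h7
  have h4 := hVF F hF _ hx hb w.embedding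
  have h5 : ‖w.embedding ((u : 𝓞 F) : F)‖ = w ((u : 𝓞 F) : F) :=
    InfinitePlace.norm_embedding_eq w _
  have h6 : Real.log ‖w.embedding ((u : 𝓞 F) : F)‖ = 0 := by
    by_contra h
    have h7 := hc1 _ h4 h
    rw [h5] at h7
    exact absurd (hu w) (not_le.2 h7)
  rw [h5] at h6
  exact Real.eq_one_of_pos_of_log_eq_zero (hpos w) h6

end Pool.Agent.K1H58.TW
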